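import Pool.Agent.H8.PL.Targets

/-!
# Planarity and the rules are invariant
-/

set_option autoImplicit false

namespace Pool.Agent.H59.PL

open Pool.Agent.H16.TO Pool.Agent.H8.PL

section
variable {V V' : Type} {G : SimpleGraph V} {G' : SimpleGraph V'}

/-- the bijection of the darts -/
def dartEquiv (φ : G ≃g G') : G.Dart ≃ G'.Dart where
  toFun d := ⟨(φ d.fst, φ d.snd), φ.map_rel_iff.2 d.adj⟩
  invFun d := ⟨(φ.symm d.fst, φ.symm d.snd), φ.symm.map_rel_iff.2 d.adj⟩
  left_inv d := by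
    apply SimpleGraph.Dart.ext
    apply Prod.ext <;> simp
  right_inv d := by
    apply SimpleGraph.Dart.ext
    apply Prod.ext <;> simp

theorem dartEquiv_fst (φ : G ≃g G') (d : G.Dart) : (dartEquiv φ d).fst = φ d.fst := rfl

theorem dartEquiv_symm_fst (φ : G ≃g G') (d : G'.Dart) :
    ((dartEquiv φ).symm d).fst = φ.symm d.fst := rfl

theorem dartEquiv_symm (φ : G ≃g G') (d : G.Dart) :
    (dartEquiv φ d).symm = dartEquiv φ d.symm := rfl

theorem dartEquiv_symm_symm (φ : G ≃g G') (d : G'.Dart) :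
    ((dartEquiv φ).symm d).symm = (dartEquiv φ).symm d.symm := rfl

theorem sameCycle_permCongr {α β : Type} (D : α ≃ β) (f : Equiv.Perm α) (a b : α) :
    f.SameCycle a b ↔ (D.permCongr f).SameCycle (D a) (D b) := by
  have h : ∀ i : ℤ, ((D.permCongr f) ^ i) (D a) = D ((f ^ i) a) := by
    intro i
    have h1 : (D.permCongr f) ^ i = D.permCongr (f ^ i) := by
      have := map_zpow (Equiv.permCongrHom D) f i
      exact this.symm
    rw [h1, Equiv.permCongr_apply, Equiv.symm_apply_apply]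
  unfold Equiv.Perm.SameCycle
  refine exists_congr fun i => ?_
  rw [h i]
  exact ⟨fun h1 => by rw [h1], fun h1 => D.injective h1⟩

theorem facePerm_congr (φ : G ≃g G') (σ : Equiv.Perm G.Dart) :
    facePerm G' ((dartEquiv φ).permCongr σ) = (dartEquiv φ).permCongr (facePerm G σ) := by
  ext1 d
  rw [Equiv.permCongr_apply]
  change ((dartEquiv φ).permCongr σ) d.symm = dartEquiv φ (σ ((dartEquiv φ).symm d).symm)
  rw [Equiv.permCongr_apply, dartEquiv_symm_symm]

theorem rotation_congr (φ : G ≃g G') (σ : Equiv.Perm G.Dart) (h : IsRotation G σ) :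
    IsRotation G' ((dartEquiv φ).permCongr σ) := by
  constructor
  · intro d
    rw [Equiv.permCongr_apply, dartEquiv_fst, h.fst, dartEquiv_symm_fst]
    exact φ.apply_symm_apply _
  · intro d d' hd
    have h1 : ((dartEquiv φ).symm d).fst = ((dartEquiv φ).symm d').fst := by
      rw [dartEquiv_symm_fst, dartEquiv_symm_fst, hd]
    have h2 := (sameCycle_permCongr (dartEquiv φ) σ _ _).1 (h.cyc _ _ h1)
    rwa [Equiv.apply_symm_apply, Equiv.apply_symm_apply] at h2

theorem planar_congr (φ : G ≃g G') (h : IsPlanar G) : IsPlanar G' := by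
  obtain ⟨σ, hσ, hc⟩ := h
  refine ⟨(dartEquiv φ).permCongr σ, rotation_congr φ σ hσ, ?_⟩
  have e1 : Nat.card G'.edgeSet = Nat.card G.edgeSet := (Nat.card_congr φ.mapEdgeSet).symm
  have e2 : Nat.card {K : G'.ConnectedComponent //
      ∃ d : G'.Dart, G'.connectedComponentMk d.fst = K} =
      Nat.card {K : G.ConnectedComponent // ∃ d : G.Dart, G.connectedComponentMk d.fst = K} := by
    refine (Nat.card_congr (Equiv.subtypeEquiv φ.connectedComponentEquiv fun K => ?_)).symm
    constructor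
    · rintro ⟨d, rfl⟩
      exact ⟨dartEquiv φ d, rfl⟩
    · rintro ⟨d, hd⟩
      refine ⟨(dartEquiv φ).symm d, ?_⟩
      apply φ.connectedComponentEquiv.injective
      rw [← hd]
      change G'.connectedComponentMk (φ (φ.symm d.fst)) = _
      rw [φ.apply_symm_apply]
  have e3 : Nat.card {v : V' // ∃ d : G'.Dart, d.fst = v} =
      Nat.card {v : V // ∃ d : G.Dart, d.fst = v} := by
    refine (Nat.card_congr (Equiv.subtypeEquiv φ.toEquiv fun v => ?_)).symm
    constructor
    · rintro ⟨d, rfl⟩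
      exact ⟨dartEquiv φ d, rfl⟩
    · rintro ⟨d, hd⟩
      refine ⟨(dartEquiv φ).symm d, ?_⟩
      rw [dartEquiv_symm_fst, hd]
      exact φ.symm_apply_apply v
  have e4 : Nat.card (Quotient (Equiv.Perm.SameCycle.setoid
      (facePerm G' ((dartEquiv φ).permCongr σ)))) =
      Nat.card (Quotient (Equiv.Perm.SameCycle.setoid (facePerm G σ))) := by
    refine (Nat.card_congr (Quotient.congr (dartEquiv φ) fun a b => ?_)).symm
    rw [facePerm_congr]
    exact sameCycle_permCongr (dartEquiv φ) (facePerm G σ) a b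
  rw [e1, e2, e3, e4]
  exact hc

theorem pf_IS : Z_IS := by
  intro V V' e G G' hadj
  let φ : G ≃g G' := ⟨e, fun {a b} => (hadj a b).symm⟩
  refine ⟨planar_congr φ, fun Q U Hh Vv lb ti h => ?_⟩
  have hE : ∀ s a b, Er G (fun a => lb (e a)) s a b ↔ Er G' lb s (e a) (e b) := fun s a b =>
    and_congr (hadj a b) Iff.rfl
  have hN : ∀ s a b, Nr G (fun a => lb (e a)) s a b ↔ Nr G' lb s (e a) (e b) := fun s a b =>
    and_congr (hadj a b) Iff.rfl
  have tr : ∀ (p : V → Prop) (q : V' → Prop), (∀ a, p a ↔ q (e a)) → (∃! a, p a) →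
      ∃! b, q b := by
    rintro p q hpq ⟨a, ha, hu⟩
    refine ⟨e a, (hpq a).1 ha, fun b hb => ?_⟩
    have h1 : p (e.symm b) := by
      rw [hpq, Equiv.apply_symm_apply]
      exact hb
    rw [← hu _ h1, Equiv.apply_symm_apply]
  obtain ⟨lr, un, ho, ve⟩ := h
  refine ⟨⟨?_, ?_, ?_, ?_, ?_, ?_⟩, ?_, ?_, ?_⟩
  · intro x y
    obtain ⟨a, rfl⟩ := e.surjective x
    obtain ⟨b, rfl⟩ := e.surjective y
    intro hxy
    exact lr.adj a b ((hadj a b).2 hxy)
  · intro s x
    obtain ⟨a, rfl⟩ := e.surjective x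
    intro h1 h2
    exact tr _ _ (fun b => hE s a b) (lr.ea s a h1 h2)
  · intro s x
    obtain ⟨a, rfl⟩ := e.surjective x
    intro h1 h2
    exact tr _ _ (fun b => hE s b a) (lr.we s a h1 h2)
  · intro s x
    obtain ⟨a, rfl⟩ := e.surjective x
    intro h1 h2
    exact tr _ _ (fun b => hN s a b) (lr.no s a h1 h2)
  · intro s x
    obtain ⟨a, rfl⟩ := e.surjective x
    intro h1 h2
    exact tr _ _ (fun b => hN s b a) (lr.so s a h1 h2)
  · intro h v h1 h2
    exact tr _ _ (fun _ => Iff.rfl) (lr.cor h v h1 h2)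
  · intro x
    obtain ⟨a, rfl⟩ := e.surjective x
    intro h1
    exact un a h1
  · intro x y
    obtain ⟨a, rfl⟩ := e.surjective x
    obtain ⟨b, rfl⟩ := e.surjective y
    intro h1
    exact ho a b ((hE true a b).2 h1)
  · intro x y
    obtain ⟨a, rfl⟩ := e.surjective x
    obtain ⟨b, rfl⟩ := e.surjective y
    intro h1
    exact ve a b ((hN true a b).2 h1)

end

end Pool.Agent.H59.PL
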