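import Pool.Agent.H8.PL.Targets

/-!
# Counting is existential second-order definable
-/

set_option autoImplicit false

namespace Pool.Agent.H59.PL

open Pool.Agent.H69.Sp Pool.Agent.H69.Mt Pool.Agent.H16.TO Pool.Agent.H8.PL

/-- rename the parameters -/
def rE (g : ℕ → ℕ) (k : ℕ) : ℕ := if k < 3 ∨ k % 2 = 0 then k else 3 + 2 * g ((k - 3) / 2)

theorem J_rE {E I : ℕ → List ℕ → Prop} {g : ℕ → ℕ} :
    (fun i => J E I (rE g i)) = J (fun i => E (g i)) I := by
  funext k
  unfold rE
  by_cases h : k < 3 ∨ k % 2 = 0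
  · rw [if_pos h]
    funext l
    unfold J
    by_cases h0 : k = 0
    · rw [if_pos h0, if_pos h0]
    · rw [if_neg h0, if_neg h0]
      by_cases h1 : k = 1
      · rw [if_pos h1, if_pos h1]
      · rw [if_neg h1, if_neg h1]
        by_cases h2 : k = 2
        · rw [if_pos h2, if_pos h2]
        · rw [if_neg h2, if_neg h2, if_neg (by omega), if_neg (by omega)]
  · rw [if_neg h, J_E]
    funext l
    unfold J
    rw [if_neg (by omega), if_neg (by omega), if_neg (by omega), if_pos (by omega)]

theorem FD.renE {P : Pd} (h : FD P) (g : ℕ → ℕ) : FD (fun N E v => P N (fun i => E (g i)) v) := by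
  obtain ⟨φ, h⟩ := h
  refine ⟨φ.ren (rE g), fun N E I v hv => ?_⟩
  rw [sat_ren, J_rE]
  exact h N _ I v hv

theorem ED.renE {P : Pd} (h : ED P) (g : ℕ → ℕ) : ED (fun N E v => P N (fun i => E (g i)) v) := by
  obtain ⟨φ, h⟩ := h
  refine ⟨φ.ren (rE g), fun N E v hv => ?_⟩
  refine (h N _ v hv).trans (exists_congr fun I => ?_)
  rw [sat_ren, J_rE]

theorem FD.dep {P : Pd} (h : FD P) : ∃ B, ∀ N E v w, (∀ x, v x < N) → (∀ x, w x < N) →
    (∀ x < B, v x = w x) → (P N E v ↔ P N E w) := by
  obtain ⟨φ, h⟩ := h
  refine ⟨φ.bd, fun N E v w hv hw hvw => ?_⟩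
  rw [h N E (fun _ _ => False) v hv, h N E (fun _ _ => False) w hw]
  exact sat_congr hvw

theorem FD.sub {P : Pd} (h : FD P) {x z : ℕ} (hz : z ≠ x) :
    FD (fun N E v => P N E (Function.update v x (v z))) := by
  refine (FD.ex x ((FD.eq x z).and h)).congr fun N E v hv => ?_
  constructor
  · rintro ⟨a, ha, h1, h2⟩
    rw [Function.update_self, Function.update_of_ne hz] at h1
    rw [← h1]
    exact h2
  · intro h1
    refine ⟨v z, hv z, ?_, h1⟩
    rw [Function.update_self, Function.update_of_ne hz]

/-- the set defined by `P` in the variable `x` -/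
def Sx (P : Pd) (x N : ℕ) (E : ℕ → List ℕ → Prop) (v : ℕ → ℕ) : Set ℕ :=
  {a | a < N ∧ P N E (Function.update v x a)}

theorem Sx_fin (P : Pd) (x N : ℕ) (E : ℕ → List ℕ → Prop) (v : ℕ → ℕ) : (Sx P x N E v).Finite :=
  (Set.finite_lt_nat N).subset fun _ h => h.1

theorem ncard_le_iff {A B : Set ℕ} (hA : A.Finite) (hB : B.Finite) {N : ℕ}
    (hAN : ∀ a ∈ A, a < N) (hBN : ∀ b ∈ B, b < N) :
    (∃ R : List ℕ → Prop, (∀ a, a < N → a ∈ A → ∃ b, b < N ∧ b ∈ B ∧ R [a, b]) ∧
      ∀ a, a < N → ∀ a', a' < N → ∀ b, b < N → R [a, b] → R [a', b] → a = a') ↔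
    A.ncard ≤ B.ncard := by
  constructor
  · rintro ⟨R, h1, h2⟩
    have h3 : ∀ a, ∃ b, a ∈ A → b < N ∧ b ∈ B ∧ R [a, b] := by
      intro a
      by_cases ha : a ∈ A
      · obtain ⟨b, hb⟩ := h1 a (hAN a ha) ha
        exact ⟨b, fun _ => hb⟩
      · exact ⟨0, fun h => absurd h ha⟩
    choose f hf using h3
    refine Set.ncard_le_ncard_of_injOn f (fun a ha => (hf a ha).2.1) ?_ hB
    intro a ha a' ha' haa
    refine h2 a (hAN a ha) a' (hAN a' ha') (f a) (hf a ha).1 (hf a ha).2.2 ?_
    rw [haa]
    exact (hf a' ha').2.2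
  · intro h
    have : Finite A := hA
    have : Finite B := hB
    have hc : Nat.card A ≤ Nat.card B := h
    let eA : A ≃ Fin (Nat.card A) := Finite.equivFin A
    let eB : B ≃ Fin (Nat.card B) := Finite.equivFin B
    let f : A → B := fun a => eB.symm (Fin.castLE hc (eA a))
    have hf : Function.Injective f :=
      eB.symm.injective.comp ((Fin.castLE_injective hc).comp eA.injective)
    refine ⟨fun l => ∃ a : A, l = [a.1, (f a).1], fun a _ ha => ?_, ?_⟩
    · exact ⟨(f ⟨a, ha⟩).1, hBN _ (f ⟨a, ha⟩).2, (f ⟨a, ha⟩).2, ⟨a, ha⟩, rfl⟩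
    · rintro a _ a' _ b _ ⟨c, hc⟩ ⟨c', hc'⟩
      simp only [List.cons.injEq, and_true] at hc hc'
      have h1 : f c = f c' := Subtype.ext (hc.2.symm.trans hc'.2)
      have h2 : c = c' := hf h1
      rw [hc.1, hc'.1, h2]

/-- comparison of the numbers of elements of two definable sets -/
theorem ED.ncard_le {P Q : Pd} (hP : FD P) (hQ : FD Q) (x y : ℕ) :
    ED (fun N E v => (Sx P x N E v).ncard ≤ (Sx Q y N E v).ncard) := by
  obtain ⟨B, hB⟩ := FD.dep hP
  obtain ⟨C, hC⟩ := FD.dep hQ
  set z := B + C + x + y + 1 with hz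
  set w := B + C + x + y + 2 with hw
  set u := B + C + x + y + 3 with hu
  have hP' : FD (fun N E v => P N (fun i => E (i + 1)) v) := FD.renE hP (fun i => i + 1)
  have hQ' : FD (fun N E v => Q N (fun i => E (i + 1)) v) := FD.renE hQ (fun i => i + 1)
  have h1 : FD (fun N E v => (∀ a, a < N → P N (fun i => E (i + 1)) (Function.update v x a) →
      ∃ b, b < N ∧ Q N (fun i => E (i + 1)) (Function.update v y b) ∧ E 0 [a, b]) ∧
      ∀ a, a < N → ∀ a', a' < N → ∀ b, b < N → E 0 [a, b] → E 0 [a', b] → a = a') := by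
    refine ((FD.all z ((FD.sub hP' (x := x) (z := z) (by omega)).imp (FD.ex w
      ((FD.sub hQ' (x := y) (z := w) (by omega)).and (FD.par 0 [z, w]))))).and
      (FD.all z (FD.all u (FD.all w ((FD.par 0 [z, w]).imp ((FD.par 0 [u, w]).imp
        (FD.eq z u))))))).congr fun N E v hv => ?_
    refine and_congr ?_ ?_
    · refine forall₂_congr fun a ha => ?_
      have hva : ∀ t, Function.update v z a t < N := upd_lt hv ha z
      refine imp_congr ?_ ?_
      · rw [Function.update_self]
        refine hB N _ _ _ (upd_lt hva ha x) (upd_lt hv ha x) fun t ht => ?_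
        by_cases htx : t = x
        · rw [htx, Function.update_self, Function.update_self]
        · rw [Function.update_of_ne htx, Function.update_of_ne htx,
            Function.update_of_ne (by omega)]
      · refine exists_congr fun b => and_congr_right fun hb => ?_
        have hvb : ∀ t, Function.update (Function.update v z a) w b t < N := upd_lt hva hb w
        refine and_congr ?_ ?_
        · rw [Function.update_self]
          refine hC N _ _ _ (upd_lt hvb hb y) (upd_lt hv hb y) fun t ht => ?_
          by_cases hty : t = y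
          · rw [hty, Function.update_self, Function.update_self]
          · rw [Function.update_of_ne hty, Function.update_of_ne hty,
              Function.update_of_ne (by omega), Function.update_of_ne (by omega)]
        · simp only [List.map_cons, List.map_nil]
          rw [Function.update_self, Function.update_of_ne (show z ≠ w by omega),
            Function.update_self]
    · refine forall₂_congr fun a ha => forall₂_congr fun a' ha' => forall₂_congr fun b hb => ?_
      simp only [List.map_cons, List.map_nil]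
      rw [Function.update_self, Function.update_of_ne (show z ≠ w by omega),
        Function.update_of_ne (show z ≠ u by omega), Function.update_self,
        Function.update_of_ne (show u ≠ w by omega), Function.update_self]
  have h2 := ED.renE (ED.exR 0 h1.ed) (fun i => i - 1)
  refine h2.congr fun N E v hv => ?_
  refine Iff.trans ?_ (ncard_le_iff (Sx_fin P x N E v) (Sx_fin Q y N E v) (N := N)
    (fun a ha => ha.1) (fun b hb => hb.1))
  refine exists_congr fun R => ?_
  have h3 : (fun i => Function.update (fun i => E (i - 1)) 0 R (i + 1)) = E := by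
    funext i
    rw [Function.update_of_ne (by omega)]
    rfl
  have h4 : Function.update (fun i => E (i - 1)) 0 R 0 = R := Function.update_self _ _ _
  rw [h3, h4]
  refine and_congr_left fun _ => ?_
  constructor
  · rintro h a ha hA
    obtain ⟨b, hb, h5, h6⟩ := h a ha hA.2
    exact ⟨b, hb, ⟨hb, h5⟩, h6⟩
  · rintro h a ha hA
    obtain ⟨b, hb, h5, h6⟩ := h a ha ⟨ha, hA⟩
    exact ⟨b, hb, h5.2, h6⟩

theorem pf_NC : Z_NC := by
  intro P x y hP
  have key : ∀ (N : ℕ) (E : ℕ → List ℕ → Prop) (v : ℕ → ℕ), (∀ x, v x < N) →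
      (Sx (fun _ _ v => v (y + 1) < v y) (y + 1) N E v).ncard = v y := by
    intro N E v hv
    have h1 : Sx (fun _ _ v => v (y + 1) < v y) (y + 1) N E v = Set.Iio (v y) := by
      ext b
      unfold Sx
      simp only [Set.mem_ofPred_eq, Set.mem_Iio]
      rw [Function.update_self, Function.update_of_ne (show y ≠ y + 1 by omega)]
      have := hv y
      omega
    rw [h1, ← Finset.coe_Iio, Set.ncard_coe_finset, Nat.card_Iio]
  constructor
  · refine (ED.ncard_le hP (FD.lt (y + 1) y) x (y + 1)).congr fun N E v hv => ?_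
    rw [key N E v hv]
    rfl
  · refine (ED.ncard_le (FD.lt (y + 1) y) hP (y + 1) x).congr fun N E v hv => ?_
    rw [key N E v hv]
    rfl

end Pool.Agent.H59.PL
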